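import Pool.Agent.R975.CW.TwoB
import Pool.Agent.R975.CW.One

set_option autoImplicit false

/-!
# MP_4881ff_pr: monotonicity of strong transience for the conservative random walk

Full answer to Q1, for every dimension `d ≥ 1`: strong transience of the conservative random walk on
`ℤ^d` is inherited by all smaller parameter sequences if and only if `d ≠ 2`.

* `d = 1`: the walk is strongly transient if and only if the parameters are summable.
* `d = 2`: there are two sequences `p' ≤ p`, both with values in `{0, 1}`, such that the walk with
  parameters `p` is strongly transient and the walk with parameters `p'` visits the origin infinitely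
  often almost surely.
* `d ≥ 3`: every conservative random walk is strongly transient.
-/

namespace Pool.Agent.Results.MP_4881ff_pr.MonotoneIffNotTwo

open MeasureTheory Filter

/-- the `2d` directions: an axis and a sign -/
abbrev Dir (d : ℕ) := Fin d × Bool

/-- the unit vector `± e_i` of a direction -/
def unitVec {d : ℕ} (u : Dir d) : Fin d → ℤ := Pi.single u.1 (if u.2 then 1 else -1)

/-- the law of a coin which shows `true` with probability `q` -/
noncomputable def coin (q : unitInterval) : Measure Bool :=
  ENNReal.ofReal (q : ℝ) • Measure.dirac true + ENNReal.ofReal (1 - (q : ℝ)) • Measure.dirac false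

instance (q : unitInterval) : IsProbabilityMeasure (coin q) := by
  have h : coin q = R975.CW.coin q := rfl
  rw [h]; infer_instance

/-- the uniform law on the directions -/
noncomputable def uniform (d : ℕ) [NeZero d] : Measure (Dir d) :=
  (PMF.uniformOfFintype (Dir d)).toMeasure

instance (d : ℕ) [NeZero d] : IsProbabilityMeasure (uniform d) := by
  unfold uniform; infer_instance

/-- the driving randomness: at every time `n` a coin (showing `true` with probability `p n`) and a
uniform direction, all of them independent -/
noncomputable def law (d : ℕ) [NeZero d] (p : ℕ → unitInterval) : Measure (ℕ → Bool × Dir d) :=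
  Measure.infinitePi (fun n => (coin (p n)).prod (uniform d))

/-- the directions of the steps: the first step (time `0`) is uniform; at the time `n + 1` a fresh
uniform direction is used if the coin shows `true`, otherwise the previous step is repeated.
(`p n` is the parameter `p_{n+1}` of the problem; the value `p 0` is not used.) -/
def dir {d : ℕ} (ω : ℕ → Bool × Dir d) : ℕ → Dir d
  | 0 => (ω 0).2
  | n + 1 => if (ω (n + 1)).1 then (ω (n + 1)).2 else dir ω n

/-- the position after `n` steps -/
def position {d : ℕ} (ω : ℕ → Bool × Dir d) (n : ℕ) : Fin d → ℤ :=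
  ∑ i ∈ Finset.range n, unitVec (dir ω i)

/-- the conservative random walk with parameters `p` is strongly transient: almost surely the
Euclidean norm of the position tends to infinity -/
def StronglyTransient (d : ℕ) [NeZero d] (p : ℕ → unitInterval) : Prop :=
  ∀ᵐ ω ∂(law d p), Tendsto (fun n => Real.sqrt (∑ i, (position ω n i : ℝ) ^ 2)) atTop atTop

/-- strong transience is inherited by smaller parameters, in dimension `d` -/
def Monotone (d : ℕ) [NeZero d] : Prop :=
  ∀ p p' : ℕ → unitInterval, (∀ n, p' n ≤ p n) → StronglyTransient d p → StronglyTransient d p'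

theorem dir_eq {d : ℕ} (ω : ℕ → Bool × Dir d) (n : ℕ) : dir ω n = R975.CW.Y ω n := by
  induction n with
  | zero => rfl
  | succ n ih => simp only [dir, R975.CW.Y, ih]

theorem position_eq {d : ℕ} (ω : ℕ → Bool × Dir d) (n : ℕ) : position ω n = R975.CW.S ω n := by
  unfold position R975.CW.S
  exact Finset.sum_congr rfl fun i _ => by rw [dir_eq]; rfl

theorem strong_eq (d : ℕ) [NeZero d] (p : ℕ → unitInterval) :
    StronglyTransient d p ↔ R975.CW.StronglyTransient d p := by
  unfold StronglyTransient R975.CW.StronglyTransient
  have h : law d p = R975.CW.crw d p := rfl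
  rw [h]
  simp only [position_eq]

/-- **Full answer to Q1.** For every `d ≥ 1`, strong transience of the conservative random walk is
monotone in the parameters if and only if `d ≠ 2`. Moreover: in dimension one the walk is strongly
transient exactly when the parameters are summable; in dimension at least three it always is; and in
the plane there are `p' ≤ p` with values in `{0, 1}` such that the walk with parameters `p` is strongly
transient and the walk with parameters `p'` is at the origin infinitely often almost surely. -/
theorem result :
    (∀ (d : ℕ) [NeZero d], Monotone d ↔ d ≠ 2) ∧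
    (∀ p : ℕ → unitInterval, StronglyTransient 1 p ↔ Summable fun n => (p n : ℝ)) ∧
    (∀ (d : ℕ) [NeZero d], 3 ≤ d → ∀ p : ℕ → unitInterval, StronglyTransient d p) ∧
    ∃ p p' : ℕ → unitInterval, (∀ n, p n = 0 ∨ p n = 1) ∧ (∀ n, p' n = 0 ∨ p' n = 1) ∧
      (∀ n, p' n ≤ p n) ∧ StronglyTransient 2 p ∧
      ∀ᵐ ω ∂(law 2 p'), ∃ᶠ n in atTop, position ω n = 0 := by
  refine ⟨?_, ?_, ?_, ?_⟩
  · intro d hd
    have h1 : Monotone d ↔ R975.CW.Mono d := by
      unfold Monotone R975.CW.Mono
      simp only [strong_eq]
    rw [h1]
    constructor
    · rintro h rfl
      exact R975.CW.not_mono_two h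
    · exact fun h => R975.CW.mono_ne_two d h
  · intro p
    rw [strong_eq]
    exact R975.CW.strong_one p
  · intro d _ hd p
    rw [strong_eq]
    exact R975.CW.strong_three hd p
  · refine ⟨R975.CW.ind01 R975.CW.Rp, R975.CW.ind01 R975.CW.Rq, ?_, ?_, ?_, ?_, ?_⟩
    · intro n; unfold R975.CW.ind01; split_ifs <;> simp
    · intro n; unfold R975.CW.ind01; split_ifs <;> simp
    · exact R975.CW.ind_le
    · rw [strong_eq]; exact R975.CW.strong_Rp
    · have h : law 2 (R975.CW.ind01 R975.CW.Rq) = R975.CW.crw 2 (R975.CW.ind01 R975.CW.Rq) := rfl
      rw [h]
      simp only [position_eq]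
      exact R975.CW.visits_Rq

end Pool.Agent.Results.MP_4881ff_pr.MonotoneIffNotTwo
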